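import Pool.Agent.Lib_helper12.FL.MGI2

/-! Polygons under a force: exponential tails at the critical weight (module MGT). -/

set_option autoImplicit false

namespace Pool.Agent.FL

open Finset Pool.Agent.Lib27 Pool.Agent.SapR
open scoped NNReal ENNReal

namespace MGT

lemma fin_le {ι : Type} (P : Set ι) (F : Finset ι) (hF : ∀ p ∈ F, p ∈ P) (f : ι → ℝ≥0∞)
    (B : ℝ≥0∞) (h : ∑' p : P, f p ≤ B) : ∑ p ∈ F, f p ≤ B := by
  refine le_trans ?_ h
  rw [← Finset.tsum_subtype F f]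
  exact ENNReal.tsum_mono_subtype f (s := (F : Set ι)) (t := P) (fun p hp => hF p hp)

/-- the algebra of the weights -/
lemma weight_eq (s x rho e : ℝ) (hs : 0 < s) (hx : 0 < x) (he : 0 < e) (k h : ℕ)
    (hk : h ≤ k) : rho ^ k * s ^ (k - h) =
      (rho / (x ^ 2 / s)) ^ k * ((((1 + e) ^ 2)⁻¹) ^ k * (((1 + e) * x) ^ (2 * k) * (s⁻¹) ^ h)) := by
  obtain ⟨j, rfl⟩ : ∃ j, k = h + j := ⟨k - h, by omega⟩
  have h1 : h + j - h = j := by omega
  rw [h1, pow_mul, mul_pow (1 + e) x 2]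
  have h2 : rho / (x ^ 2 / s) = rho * s * (x ^ 2)⁻¹ := by
    field_simp
  have h3 : ((1 + e) ^ 2) ≠ 0 := by positivity
  have h4 : x ^ 2 ≠ 0 := by positivity
  have h5 : s ≠ 0 := hs.ne'
  rw [h2, mul_pow, mul_pow, mul_pow]
  have e1 : ((x ^ 2)⁻¹) ^ (h + j) * (x ^ 2) ^ (h + j) = 1 := by
    rw [← mul_pow, inv_mul_cancel₀ h4, one_pow]
  have e2 : (((1 + e) ^ 2)⁻¹) ^ (h + j) * ((1 + e) ^ 2) ^ (h + j) = 1 := by
    rw [← mul_pow, inv_mul_cancel₀ h3, one_pow]
  have e3 : s ^ h * (s⁻¹) ^ h = 1 := by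
    rw [← mul_pow, mul_inv_cancel₀ h5, one_pow]
  calc rho ^ (h + j) * s ^ j = rho ^ (h + j) * s ^ j * 1 * 1 * 1 := by ring
    _ = rho ^ (h + j) * s ^ j * (((x ^ 2)⁻¹) ^ (h + j) * (x ^ 2) ^ (h + j)) *
        ((((1 + e) ^ 2)⁻¹) ^ (h + j) * ((1 + e) ^ 2) ^ (h + j)) * (s ^ h * (s⁻¹) ^ h) := by
          rw [e1, e2, e3]
    _ = _ := by
          rw [pow_add s h j]
          ring

lemma Tails.mono {C C' θ θ' : ℝ} {n : ℕ} {s rho : ℝ} (h : Tails C θ n s rho) (hC : C ≤ C')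
    (hC0 : 0 ≤ C) (hθ0 : 0 ≤ θ) (hθ : θ ≤ θ') : Tails C' θ' n s rho := by
  obtain ⟨h1, h2, h3⟩ := h
  have key : ∀ m : ℕ, C * θ ^ m ≤ C' * θ' ^ m := fun m =>
    mul_le_mul hC (pow_le_pow_left₀ hθ0 hθ m) (by positivity) (hC0.trans hC)
  refine ⟨fun m => (h1 m).trans (key m), fun m => (h2 m).trans (key m), h3.trans ?_⟩
  have e1 : C * n * θ ^ n = n * (C * θ ^ n) := by ring
  have e2 : C' * n * θ' ^ n = n * (C' * θ' ^ n) := by ring
  rw [e1, e2]
  exact mul_le_mul_of_nonneg_left (key n) (by positivity)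

lemma core (h2 : MGI1_Stmt) (s x e C0 : ℝ≥0) (hs : 0 < s) (hx : 0 < x) (he : 0 < e)
    (hone : ∑' p : {p : Wd × Wd | FreePiece p.1 p.2}, (x : ℝ≥0∞) ^ ((p : Wd × Wd).1.length +
      (p : Wd × Wd).2.length) * ((s⁻¹ : ℝ≥0) : ℝ≥0∞) ^ htn p = 1)
    (hB : ∑' H : ℕ, ((s⁻¹ : ℝ≥0) : ℝ≥0∞) ^ H * gfp ((1 + e) * x) (NC H) ≤ C0)
    (n : ℕ) (hn : 1 ≤ n)
    (hn0 : (n : ℝ) * (C0 * (((1 + (e : ℝ)) ^ 2)⁻¹) ^ (n + 1)) ≤ 1 / 2) (rho : ℝ) (hr : 0 < rho)
    (hF : ∑ p ∈ Pc (2 * n - 1), rho ^ hl p * (s : ℝ) ^ (hl p - htn p) = 1) :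
    Tails (4 * C0 + 1) (((1 + (e : ℝ)) ^ 2)⁻¹) n s rho := by
  classical
  have hs' : (0 : ℝ) < s := hs
  have hx' : (0 : ℝ) < x := hx
  have he' : (0 : ℝ) < e := he
  set θ : ℝ := ((1 + (e : ℝ)) ^ 2)⁻¹ with hθ
  have hθ0 : 0 < θ := by positivity
  have hθ1 : θ < 1 := by
    rw [hθ]
    apply inv_lt_one_of_one_lt₀
    nlinarith
  set ri : ℝ := (x : ℝ) ^ 2 / s with hri
  have hri0 : 0 < ri := by positivity
  set t : ℝ := rho / ri with ht
  have ht0 : 0 < t := by positivity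
  obtain ⟨hP, hT, hW⟩ := h2 ((1 + e) * x) s⁻¹
  -- the pieces
  have hg : ∀ p : Wd × Wd, FreePiece p.1 p.2 → htn p ≤ hl p := by
    intro p hp
    have := htn_le hp
    have := hl_pos hp
    omega
  have sumg : ∀ F : Finset (Wd × Wd), (∀ p ∈ F, FreePiece p.1 p.2) →
      ∑ p ∈ F, (((1 + (e : ℝ)) * x) ^ (2 * hl p) * ((s : ℝ)⁻¹) ^ htn p) ≤ C0 := by
    intro F hFF
    have e1 := fin_le {p : Wd × Wd | FreePiece p.1 p.2} F hFF
      (fun p => (((1 + e) * x : ℝ≥0) : ℝ≥0∞) ^ (p.1.length + p.2.length) *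
        ((s⁻¹ : ℝ≥0) : ℝ≥0∞) ^ htn p) _ (hP.trans hB)
    have e2 : ∑ p ∈ F, (((1 + e) * x) ^ (p.1.length + p.2.length) * (s⁻¹) ^ htn p : ℝ≥0) ≤ C0 := by
      exact_mod_cast e1
    have e3 : ((∑ p ∈ F, (((1 + e) * x) ^ (p.1.length + p.2.length) *
        (s⁻¹) ^ htn p : ℝ≥0) : ℝ≥0) : ℝ) ≤ C0 := by exact_mod_cast e2
    push_cast at e3
    refine le_trans (le_of_eq (sum_congr rfl ?_)) e3
    intro p hp
    rw [hl_eq (hFF p hp)]
  -- lower bound of the truncated sum at the critical point of the full series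
  have hlow : 1 - C0 * θ ^ (n + 1) ≤
      ∑ p ∈ Pc (2 * n - 1), ri ^ hl p * (s : ℝ) ^ (hl p - htn p) := by
    set f : Wd × Wd → ℝ≥0∞ := fun p => (x : ℝ≥0∞) ^ (p.1.length + p.2.length) *
      ((s⁻¹ : ℝ≥0) : ℝ≥0∞) ^ htn p with hf
    set g : Wd × Wd → ℝ≥0∞ := fun p => (((1 + e) * x : ℝ≥0) : ℝ≥0∞) ^
      (p.1.length + p.2.length) * ((s⁻¹ : ℝ≥0) : ℝ≥0∞) ^ htn p with hgd
    set th : ℝ≥0 := ((1 + e) ^ 2)⁻¹ with hth
    have e1 : ∀ p : Wd × Wd, FreePiece p.1 p.2 →
        f p ≤ (if p ∈ Pc (2 * n - 1) then f p else 0) + (th : ℝ≥0∞) ^ (n + 1) * g p := by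
      intro p hp
      split_ifs with hmem
      · exact le_self_add
      · rw [zero_add, hf, hgd]
        beta_reduce
        have hlen : n + 1 ≤ hl p := by
          rw [mem_Pc] at hmem
          have h5 := hl_eq hp
          by_contra hc
          exact hmem ⟨hp, by omega⟩
        have h6 : (x ^ (p.1.length + p.2.length) * (s⁻¹) ^ htn p : ℝ≥0) ≤
            th ^ (n + 1) * (((1 + e) * x) ^ (p.1.length + p.2.length) * (s⁻¹) ^ htn p) := by
          rw [hl_eq hp, ← mul_assoc]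
          apply mul_le_mul_of_nonneg_right _ zero_le
          rw [pow_mul, pow_mul, mul_pow (1 + e) x 2, mul_pow]
          have h7 : (1 : ℝ≥0) ≤ th ^ (n + 1) * ((1 + e) ^ 2) ^ hl p := by
            obtain ⟨j, hj⟩ : ∃ j, hl p = (n + 1) + j := ⟨hl p - (n + 1), by omega⟩
            rw [hj, pow_add ((1 + e) ^ 2) (n + 1) j, ← mul_assoc, ← mul_pow, hth,
              inv_mul_cancel₀ (by positivity), one_pow, one_mul]
            apply one_le_pow₀
            apply one_le_pow₀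
            exact le_self_add
          calc (x ^ 2) ^ hl p = 1 * (x ^ 2) ^ hl p := by rw [one_mul]
            _ ≤ (th ^ (n + 1) * ((1 + e) ^ 2) ^ hl p) * (x ^ 2) ^ hl p :=
              mul_le_mul_of_nonneg_right h7 zero_le
            _ = _ := by ring
        exact_mod_cast h6
    have e2 : (1 : ℝ≥0∞) ≤ ∑ p ∈ Pc (2 * n - 1), f p + (th : ℝ≥0∞) ^ (n + 1) * C0 := by
      rw [← hone]
      calc ∑' p : {p : Wd × Wd | FreePiece p.1 p.2}, f p
          ≤ ∑' p : {p : Wd × Wd | FreePiece p.1 p.2},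
              ((if (p : Wd × Wd) ∈ Pc (2 * n - 1) then f p else 0) +
                (th : ℝ≥0∞) ^ (n + 1) * g p) := ENNReal.tsum_le_tsum (fun p => e1 p p.2)
        _ = ∑' p : {p : Wd × Wd | FreePiece p.1 p.2},
              (if (p : Wd × Wd) ∈ Pc (2 * n - 1) then f p else 0) +
            (th : ℝ≥0∞) ^ (n + 1) * ∑' p : {p : Wd × Wd | FreePiece p.1 p.2}, g p := by
              rw [ENNReal.tsum_add, ENNReal.tsum_mul_left]
        _ ≤ ∑ p ∈ Pc (2 * n - 1), f p + (th : ℝ≥0∞) ^ (n + 1) * C0 := by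
              apply add_le_add
              · calc ∑' p : {p : Wd × Wd | FreePiece p.1 p.2},
                    (if (p : Wd × Wd) ∈ Pc (2 * n - 1) then f p else 0)
                    ≤ ∑' p : Wd × Wd, (if p ∈ Pc (2 * n - 1) then f p else 0) :=
                      ENNReal.tsum_comp_le_tsum_of_injective Subtype.val_injective
                        (fun p : Wd × Wd => if p ∈ Pc (2 * n - 1) then f p else 0)
                  _ = ∑ p ∈ Pc (2 * n - 1), (if p ∈ Pc (2 * n - 1) then f p else 0) :=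
                      tsum_eq_sum (fun p hp => if_neg hp)
                  _ = ∑ p ∈ Pc (2 * n - 1), f p :=
                      sum_congr rfl (fun p hp => if_pos hp)
              · exact mul_le_mul_right (hP.trans hB) _
    have e3 : (1 : ℝ≥0) ≤ ∑ p ∈ Pc (2 * n - 1),
        (x ^ (p.1.length + p.2.length) * (s⁻¹) ^ htn p) + th ^ (n + 1) * C0 := by
      rw [hf] at e2
      beta_reduce at e2
      exact_mod_cast e2
    have e4 : (1 : ℝ) ≤ ((∑ p ∈ Pc (2 * n - 1),
        (x ^ (p.1.length + p.2.length) * (s⁻¹) ^ htn p) + th ^ (n + 1) * C0 : ℝ≥0) : ℝ) := by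
      exact_mod_cast e3
    have hthr : (th : ℝ) = θ := by
      rw [hth, hθ]
      push_cast
      rfl
    push_cast at e4
    rw [hthr] at e4
    have e5 : ∑ p ∈ Pc (2 * n - 1), ri ^ hl p * (s : ℝ) ^ (hl p - htn p) =
        ∑ p ∈ Pc (2 * n - 1), ((x : ℝ) ^ (p.1.length + p.2.length) * ((s : ℝ)⁻¹) ^ htn p) := by
      apply sum_congr rfl
      intro p hp
      rw [mem_Pc] at hp
      rw [hl_eq hp.1, weight_eq s x ri e hs' hx' he' (hl p) (htn p) (hg p hp.1), ← hri,
        div_self hri0.ne', one_pow, one_mul, mul_pow, ← mul_assoc, ← mul_assoc]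
      congr 1
      have : (((1 + (e : ℝ)) ^ 2)⁻¹) ^ hl p * (1 + (e : ℝ)) ^ (2 * hl p) = 1 := by
        rw [pow_mul, ← mul_pow, inv_mul_cancel₀ (by positivity), one_pow]
      rw [this, one_mul]
    rw [e5]
    linarith
  -- the ratio
  have hratio : ∀ m : ℕ, m ≤ n → t ^ m ≤ 2 := by
    intro m hm
    rcases le_or_gt t 1 with h1 | h1
    · have := pow_le_one₀ (n := m) ht0.le h1
      linarith
    · have e1 : ∑ p ∈ Pc (2 * n - 1), ri ^ hl p * (s : ℝ) ^ (hl p - htn p) ≤ 1 / t := by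
        have e2 : ∀ p ∈ Pc (2 * n - 1), ri ^ hl p * (s : ℝ) ^ (hl p - htn p) ≤
            1 / t * (rho ^ hl p * (s : ℝ) ^ (hl p - htn p)) := by
          intro p hp
          rw [mem_Pc] at hp
          rw [← mul_assoc]
          apply mul_le_mul_of_nonneg_right _ (by positivity)
          have e3 : rho = t * ri := by
            rw [ht]
            field_simp
          rw [e3, mul_pow, ← mul_assoc]
          have e4 : 1 ≤ 1 / t * t ^ hl p := by
            obtain ⟨j, hj⟩ : ∃ j, hl p = j + 1 := ⟨hl p - 1, by have := hl_pos hp.1; omega⟩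
            rw [hj, pow_succ]
            have : 1 / t * (t ^ j * t) = t ^ j := by field_simp
            rw [this]
            exact one_le_pow₀ h1.le
          calc ri ^ hl p = 1 * ri ^ hl p := by rw [one_mul]
            _ ≤ (1 / t * t ^ hl p) * ri ^ hl p := mul_le_mul_of_nonneg_right e4 (by positivity)
        refine (sum_le_sum e2).trans ?_
        rw [← mul_sum, hF, mul_one]
      have e5 : 1 - C0 * θ ^ (n + 1) ≤ 1 / t := hlow.trans e1
      have e6 : t ^ m ≤ t ^ n := pow_le_pow_right₀ h1.le hm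
      have e7 : 1 / 2 ≤ (1 / t) ^ n := by
        set ε := (C0 : ℝ) * θ ^ (n + 1) with hε
        have hε0 : 0 ≤ ε := by positivity
        have hn1 : (1 : ℝ) ≤ n := by exact_mod_cast hn
        have hε1 : ε ≤ 1 / 2 := by nlinarith
        have e8 : 1 + (n : ℝ) * (-ε) ≤ (1 + -ε) ^ n :=
          one_add_mul_le_pow (by linarith) n
        have e9 : (1 + -ε) ^ n ≤ (1 / t) ^ n :=
          pow_le_pow_left₀ (by linarith) (by linarith) n
        linarith
      rw [one_div_pow, div_le_div_iff₀ (by norm_num) (by positivity)] at e7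
      linarith
  have hC0 : (0 : ℝ) ≤ C0 := C0.2
  refine ⟨?_, ?_, ?_⟩
  · intro m
    rcases le_or_gt m n with hm | hm
    · have e1 : ∀ p ∈ (Pc (2 * n - 1)).filter (fun p => hl p = m),
          rho ^ m * (s : ℝ) ^ (m - htn p) ≤ 2 * θ ^ m *
            (((1 + (e : ℝ)) * x) ^ (2 * hl p) * ((s : ℝ)⁻¹) ^ htn p) := by
        intro p hp
        rw [mem_filter, mem_Pc] at hp
        have e2 := hg p hp.1.1
        rw [hp.2] at e2 ⊢
        rw [weight_eq s x rho e hs' hx' he' m (htn p) e2, ← hri, ← ht, ← hθ, mul_assoc]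
        exact mul_le_mul_of_nonneg_right (hratio m hm) (by positivity)
      refine (sum_le_sum e1).trans ?_
      rw [← mul_sum]
      have e3 := sumg ((Pc (2 * n - 1)).filter (fun p => hl p = m))
        (fun p hp => ((mem_Pc _ _).1 (mem_filter.1 hp).1).1)
      calc 2 * θ ^ m * _ ≤ 2 * θ ^ m * C0 := mul_le_mul_of_nonneg_left e3 (by positivity)
        _ = (2 * C0) * θ ^ m := by ring
        _ ≤ (4 * C0 + 1) * θ ^ m := mul_le_mul_of_nonneg_right (by linarith) (by positivity)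
    · have e1 : (Pc (2 * n - 1)).filter (fun p => hl p = m) = ∅ := by
        rw [filter_eq_empty_iff]
        intro p hp hm'
        rw [mem_Pc] at hp
        have := hl_eq hp.1
        omega
      rw [e1, sum_empty]
      positivity
  · intro m
    rcases le_or_gt m n with hm | hm
    · have hdis : (Icc (1 : ℤ) m : Set ℤ).PairwiseDisjoint
          (fun y => CapSet (2 * n - 1) y (2 * m)) := by
        intro a _ b _ hab
        rw [Function.onFun, disjoint_left]
        intro T hTa hTb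
        unfold CapSet at hTa hTb
        rw [mem_filter] at hTa hTb
        have e1 := hTa.2.1.2.1
        have e2 := hTb.2.1.2.1
        rw [e1] at e2
        exact hab (congrArg Prod.snd e2)
      rw [← sum_biUnion hdis]
      set F := (Icc (1 : ℤ) m).biUnion (fun y => CapSet (2 * n - 1) y (2 * m)) with hFd
      have hmem : ∀ T ∈ F, T ∈ Cap ∧ T.length = 2 * m := by
        intro T hT'
        rw [hFd, mem_biUnion] at hT'
        obtain ⟨y, hy, hTy⟩ := hT'
        unfold CapSet at hTy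
        rw [mem_filter, mem_words] at hTy
        exact ⟨⟨y, (mem_Icc.1 hy).1, hTy.2.1, hTy.2.2.1⟩, hTy.1⟩
      have e1 := fin_le Cap F (fun T hT' => (hmem T hT').1)
        (fun T => (((1 + e) * x : ℝ≥0) : ℝ≥0∞) ^ T.length *
          ((s⁻¹ : ℝ≥0) : ℝ≥0∞) ^ hgt T) _ (hT.trans hB)
      have e2 : ∑ T ∈ F, (((1 + e) * x) ^ T.length * (s⁻¹) ^ hgt T : ℝ≥0) ≤ C0 := by
        exact_mod_cast e1
      have e3 : ((∑ T ∈ F, (((1 + e) * x) ^ T.length *
          (s⁻¹) ^ hgt T : ℝ≥0) : ℝ≥0) : ℝ) ≤ C0 := by exact_mod_cast e2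
      push_cast at e3
      have e4 : ∀ T ∈ F, rho ^ m * (s : ℝ) ^ (m - hgt T) ≤ 2 * θ ^ m *
          (((1 + (e : ℝ)) * x) ^ T.length * ((s : ℝ)⁻¹) ^ hgt T) := by
        intro T hT'
        obtain ⟨⟨y, hy, hA, hC⟩, hlen⟩ := hmem T hT'
        have e5 : hgt T ≤ m := by
          have := cap_height hA hC
          rw [hlen] at this
          push_cast at this
          have := hA.length_pos
          omega
        rw [hlen, weight_eq s x rho e hs' hx' he' m (hgt T) e5, ← hri, ← ht, ← hθ, mul_assoc]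
        exact mul_le_mul_of_nonneg_right (hratio m hm) (by positivity)
      refine (sum_le_sum e4).trans ?_
      rw [← mul_sum]
      calc 2 * θ ^ m * _ ≤ 2 * θ ^ m * C0 := mul_le_mul_of_nonneg_left e3 (by positivity)
        _ = (2 * C0) * θ ^ m := by ring
        _ ≤ (4 * C0 + 1) * θ ^ m := mul_le_mul_of_nonneg_right (by linarith) (by positivity)
    · have e1 : ∀ y ∈ Icc (1 : ℤ) m, ∑ T ∈ CapSet (2 * n - 1) y (2 * m),
          rho ^ m * (s : ℝ) ^ (m - hgt T) = 0 := by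
        intro y _
        have : CapSet (2 * n - 1) y (2 * m) = ∅ := by
          unfold CapSet
          rw [filter_eq_empty_iff]
          intro T _ hc
          have := hc.2.2
          omega
        rw [this, sum_empty]
      rw [sum_congr rfl e1, sum_const_zero]
      positivity
  · have e1 := (hW n hn).trans (mul_le_mul_right hB ((2 * n : ℕ) : ℝ≥0∞))
    have e2 : ∑ w ∈ NoCut n, (((1 + e) * x) ^ (2 * n) * (s⁻¹) ^ spn w : ℝ≥0) ≤
        ((2 * n : ℕ) : ℝ≥0) * C0 := by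
      exact_mod_cast e1
    have e3 : ((∑ w ∈ NoCut n, (((1 + e) * x) ^ (2 * n) * (s⁻¹) ^ spn w : ℝ≥0) : ℝ≥0) : ℝ) ≤
        (((2 * n : ℕ) : ℝ≥0) * C0 : ℝ≥0) := by exact_mod_cast e2
    push_cast at e3
    have e4 : ∀ w ∈ NoCut n, rho ^ n * (s : ℝ) ^ (n - spn w) ≤ 2 * θ ^ n *
        (((1 + (e : ℝ)) * x) ^ (2 * n) * ((s : ℝ)⁻¹) ^ spn w) := by
      intro w hw
      have e5 : spn w ≤ n := by
        have := nocut_span hn hw
        omega
      rw [weight_eq s x rho e hs' hx' he' n (spn w) e5, ← hri, ← ht, ← hθ, mul_assoc]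
      exact mul_le_mul_of_nonneg_right (hratio n le_rfl) (by positivity)
    refine (sum_le_sum e4).trans ?_
    rw [← mul_sum]
    have hn1 : (0 : ℝ) ≤ n := by positivity
    calc 2 * θ ^ n * _ ≤ 2 * θ ^ n * (2 * n * C0) := mul_le_mul_of_nonneg_left e3 (by positivity)
      _ = (4 * C0) * n * θ ^ n := by ring
      _ ≤ (4 * C0 + 1) * n * θ ^ n := by
          apply mul_le_mul_of_nonneg_right _ (by positivity)
          nlinarith

end MGT

/-- module MGT -/
theorem mgt (h1 : MGN_Stmt) (h2 : MGI1_Stmt) (h3 : MGI2_Stmt) : MG_Stmt := by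
  intro s1 hs1 hs1'
  obtain ⟨⟨s2, C2, θ2, hs2, hs2', hC2, hθ2, hθ2', hsmall⟩, hrho⟩ := h3
  have hm : 0 < min s2 s1 := lt_min hs2 hs1
  obtain ⟨C0, e, he, hN⟩ := h1 (min s2 s1).toNNReal s1.toNNReal (Real.toNNReal_pos.2 hm)
    (Real.toNNReal_le_toNNReal (min_le_right _ _)) (by
      rw [← Real.toNNReal_one]
      exact (Real.toNNReal_lt_toNNReal_iff one_pos).2 hs1')
  have he' : (0 : ℝ) < e := he
  set θ : ℝ := ((1 + (e : ℝ)) ^ 2)⁻¹ with hθ
  have hθ0 : 0 < θ := by positivity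
  have hθ1 : θ < 1 := by
    rw [hθ]
    apply inv_lt_one_of_one_lt₀
    nlinarith
  have hC0 : (0 : ℝ) ≤ C0 := C0.2
  have hlim : Filter.Tendsto (fun n : ℕ => (n : ℝ) * (C0 * θ ^ (n + 1))) Filter.atTop (nhds 0) := by
    have h4 := (tendsto_self_mul_const_pow_of_lt_one hθ0.le hθ1).const_mul ((C0 : ℝ) * θ)
    rw [mul_zero] at h4
    refine h4.congr (fun n => ?_)
    rw [pow_succ]
    ring
  obtain ⟨n1, hn1⟩ := Filter.eventually_atTop.1
    (hlim.eventually (ge_mem_nhds (show (0 : ℝ) < 1 / 2 by norm_num)))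
  refine ⟨max C2 (4 * C0 + 1), max θ2 θ, by positivity, by positivity, max_lt hθ2' hθ1,
    max n1 1, ?_⟩
  intro n s rho hn hs hss hr hF
  have hnn1 : n1 ≤ n := le_trans (le_max_left _ _) hn
  have hn1' : 1 ≤ n := le_trans (le_max_right _ _) hn
  rcases le_total s (min s2 s1) with hsm | hsm
  · have h5 := (hrho n s rho hn1' hs (by linarith) hr hF).2
    exact MGT.Tails.mono (hsmall n s rho hn1' hs (hsm.trans (min_le_left _ _)) hr h5)
      (le_max_left _ _) hC2.le hθ2.le (le_max_left _ _)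
  · obtain ⟨x, hx, hone, hB⟩ := hN s.toNNReal (Real.toNNReal_le_toNNReal hsm)
      (Real.toNNReal_le_toNNReal hss)
    have hcs : (s.toNNReal : ℝ) = s := Real.coe_toNNReal s hs.le
    have h6 := MGT.core h2 s.toNNReal x e C0 (Real.toNNReal_pos.2 hs) hx he hone hB n hn1'
      (hn1 n hnn1) rho hr (by rw [hcs]; exact hF)
    rw [hcs] at h6
    exact MGT.Tails.mono h6 (le_max_right _ _) (by positivity) hθ0.le (le_max_right _ _)

end Pool.Agent.FL
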