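import Pool.Agent.Lib_helper89.FL.StmtsMG
import Pool.Agent.Lib_helper24.SapR.Glue
import Pool.Agent.Lib_helper58.SapR.Root

/-! Polygons under a force: levels without cut carry at least three vertices. -/

set_option autoImplicit false

namespace Pool.Agent.FL

open Finset Pool.Agent.Lib27 Pool.Agent.SapR

/-- the levels are disjoint -/
lemma sum_cnt_le (l : List (ℤ × ℤ)) (S : Finset ℤ) : ∑ k ∈ S, cnt l k ≤ l.length := by
  induction l with
  | nil => simp
  | cons p l ih =>
    have h1 : ∑ k ∈ S, cnt (p :: l) k =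
        ∑ k ∈ S, (if lev p = k then 1 else 0) + ∑ k ∈ S, cnt l k := by
      rw [← sum_add_distrib]
      apply sum_congr rfl
      intro k _
      rw [cnt_cons]
    have h2 : ∑ k ∈ S, (if lev p = k then 1 else 0) ≤ 1 := by
      rw [Finset.sum_ite_eq]
      split_ifs <;> simp
    rw [h1, List.length_cons]
    omega

/-- summation over an interval of levels with given lower bounds -/
lemma sum_levels (a b : ℤ) (hab : a < b) (f : ℤ → ℕ) (c d N : ℕ) (ha : c ≤ f a) (hb : d ≤ f b)
    (hin : ∀ k, a < k → k < b → 3 ≤ f k) (hN : ∑ k ∈ Icc a b, f k ≤ N) :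
    (c : ℤ) + d + 3 * (b - a - 1) ≤ N := by
  have h1 : Icc a b = insert a (insert b (Ioo a b)) := by
    ext k
    simp only [mem_Icc, mem_insert, mem_Ioo]
    omega
  rw [h1, sum_insert, sum_insert] at hN
  · have h2 : (Ioo a b).card • 3 ≤ ∑ k ∈ Ioo a b, f k := by
      apply card_nsmul_le_sum
      intro k hk
      rw [mem_Ioo] at hk
      exact hin k hk.1 hk.2
    rw [Int.card_Ioo, smul_eq_mul] at h2
    have h3 : (((b - a - 1).toNat : ℕ) : ℤ) = b - a - 1 := by omega
    zify at h2 hN ha hb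
    rw [h3] at h2
    linarith
  · simp
  · simp only [mem_insert, mem_Ioo, not_or]
    omega

/-- height of a free piece -/
lemma piece_height {U D : List (Fin 4)} (h : FreePiece U D) :
    3 * lev (ep 0 U) ≤ (U.length : ℤ) + D.length + 1 := by
  obtain ⟨hs, hi⟩ := h
  set H := lev (ep 0 U) with hH
  have hpos : 0 < H := hs.hpos
  have hepD : lev (ep 0 D) = - H := hs.2.1
  have cU : ∀ k : ℤ, 0 ≤ k → k ≤ H → 1 ≤ cnt (vt 0 U) k := by
    intro k h0 h1
    have : 0 < cnt (vt 0 U) k := (cnt_pos _ _).2 (exists_level U 0 k (by simpa using h0) h1)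
    omega
  have cD : ∀ k : ℤ, 0 ≤ k → k ≤ H → 1 ≤ cnt (vt 0 D) (k - H) := by
    intro k h0 h1
    have : 0 < cnt (vt 0 D) (k - H) :=
      (cnt_pos _ _).2 (exists_level' D 0 (k - H) (by simp only [lev_zero]; omega) (by omega))
    omega
  have h1 : ∑ k ∈ Icc 0 H, cnt (vt 0 U) k ≤ U.length + 1 := by
    have := sum_cnt_le (vt 0 U) (Icc 0 H)
    rwa [vt_length] at this
  have h2 : ∑ k ∈ Icc 0 H, cnt (vt 0 D) (k - H) ≤ D.length + 1 := by
    have h3 := sum_cnt_le (vt 0 D) ((Icc 0 H).image (fun k => k - H))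
    rw [vt_length, sum_image] at h3
    · exact h3
    · intro a _ b _ hab
      simpa using hab
  have h3 := sum_levels 0 H hpos (fun k => cnt (vt 0 U) k + cnt (vt 0 D) (k - H)) 2 2
    (U.length + D.length + 2)
    (by
      have e1 := cU 0 le_rfl hpos.le
      have e2 := cD 0 le_rfl hpos.le
      show 2 ≤ cnt (vt 0 U) 0 + cnt (vt 0 D) (0 - H)
      omega)
    (by
      have e1 := cU H hpos.le le_rfl
      have e2 := cD H hpos.le le_rfl
      show 2 ≤ cnt (vt 0 U) H + cnt (vt 0 D) (H - H)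
      omega)
    (by
      intro k hk0 hk1
      have e1 := cU k hk0.le hk1.le
      have e2 := cD k hk0.le hk1.le
      have e3 := hi k hk0 hk1
      rw [← hH] at e3
      show 3 ≤ cnt (vt 0 U) k + cnt (vt 0 D) (k - H)
      omega)
    (by
      rw [sum_add_distrib]
      omega)
  push_cast at h3
  linarith

/-- the highest level is attained -/
lemma exists_hgt {w : List (Fin 4)} (h0 : ∀ p ∈ vt 0 w, 0 ≤ lev p) :
    ∃ p ∈ vt 0 w, lev p = hgt w := by
  have hne : (vt 0 w).toFinset.Nonempty := ⟨0, by rw [List.mem_toFinset]; exact mem_vt_self _ _⟩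
  obtain ⟨p, hp, he⟩ := exists_mem_eq_sup (vt 0 w).toFinset hne (fun p => (lev p).toNat)
  rw [List.mem_toFinset] at hp
  refine ⟨p, hp, ?_⟩
  unfold hgt
  rw [he]
  have := h0 p hp
  omega

lemma le_hgt {w : List (Fin 4)} {p : ℤ × ℤ} (hp : p ∈ vt 0 w) : lev p ≤ hgt w := by
  have h1 : (lev p).toNat ≤ hgt w :=
    le_sup (f := fun p => (lev p).toNat) (List.mem_toFinset.2 hp)
  omega

/-- splitting a word at a vertex -/
lemma exists_split (w : List (Fin 4)) (p v : ℤ × ℤ) (hv : v ∈ vt p w) :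
    ∃ A B : List (Fin 4), w = A ++ B ∧ ep p A = v := by
  induction w generalizing p with
  | nil =>
    rw [vt_nil, List.mem_singleton] at hv
    exact ⟨[], [], rfl, hv.symm⟩
  | cons d w ih =>
    rw [vt_cons, List.mem_cons] at hv
    rcases hv with rfl | hv
    · exact ⟨[], d :: w, rfl, rfl⟩
    · obtain ⟨A, B, h1, h2⟩ := ih _ hv
      exact ⟨d :: A, B, by rw [h1]; rfl, h2⟩

/-- height of a cap -/
lemma cap_height {x : ℤ} {T : List (Fin 4)} (h : Arch x T)
    (hc : ∀ k : ℤ, 1 ≤ k → ¬ Cut (vt 0 T) k) : 3 * (hgt T : ℤ) ≤ T.length + 1 := by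
  have h0 := h.lev_nonneg
  obtain ⟨v, hv, hlv⟩ := exists_hgt h0
  obtain ⟨A, B, hAB, hA⟩ := exists_split T 0 v hv
  have hep : lev (ep 0 T) = 0 := h.lev_ep
  have hepB : lev (ep v B) = 0 := by
    rw [← hep, hAB, ep_append, hA]
  have hpos : 0 < (hgt T : ℤ) := by
    obtain ⟨u, hu, hlu⟩ := h.first
    have : u ∈ vt 0 T := by
      unfold vt
      exact List.mem_append_left _ (List.mem_of_mem_tail hu)
    have := le_hgt this
    omega
  have hvt : vt 0 T = vs 0 A ++ vt v B := by rw [hAB, vt_append, hA]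
  have c2 : ∀ k : ℤ, 0 ≤ k → k < hgt T → 2 ≤ cnt (vt 0 T) k := by
    intro k hk0 hk1
    rw [hvt, cnt_append]
    have e1 : 0 < cnt (vs 0 A) k := by
      rw [cnt_pos]
      obtain ⟨u, hu, hlu⟩ := exists_level A 0 k (by simpa using hk0) (by rw [hA, hlv]; omega)
      unfold vt at hu
      rw [List.mem_append, List.mem_singleton] at hu
      rcases hu with hu | hu
      · exact ⟨u, hu, hlu⟩
      · rw [hu, hA] at hlu
        omega
    have e2 : 0 < cnt (vt v B) k := by
      rw [cnt_pos]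
      exact exists_level' B v k (by omega) (by omega)
    omega
  have c1 : 1 ≤ cnt (vt 0 T) (hgt T) := by
    have : 0 < cnt (vt 0 T) (hgt T) := (cnt_pos _ _).2 ⟨v, hv, hlv⟩
    omega
  have h1 : ∑ k ∈ Icc 0 (hgt T : ℤ), cnt (vt 0 T) k ≤ T.length + 1 := by
    have := sum_cnt_le (vt 0 T) (Icc 0 (hgt T : ℤ))
    rwa [vt_length] at this
  have h2 := sum_levels 0 (hgt T : ℤ) hpos (fun k => cnt (vt 0 T) k) 2 1 (T.length + 1)
    (c2 0 le_rfl hpos) c1
    (by
      intro k hk0 hk1
      have e1 := c2 k hk0.le hk1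
      have e2 := hc k (by omega)
      show 3 ≤ cnt (vt 0 T) k
      by_contra hlt
      apply e2
      refine ⟨by omega, ?_, ?_⟩
      · have := c2 (k - 1) (by omega) (by omega)
        omega
      · rcases (show k + 1 < hgt T ∨ k + 1 = hgt T by omega) with h3 | h3
        · have := c2 (k + 1) (by omega) h3
          omega
        · rw [h3]
          omega)
    h1
  push_cast at h2
  linarith

/-- the span of a closed word is attained -/
lemma exists_spn {w : List (Fin 4)} (hw : w ≠ []) :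
    ∃ p ∈ vs 0 w, ∃ q ∈ vs 0 w, lev p - lev q = spn w ∧ ∀ r ∈ vs 0 w,
      lev q ≤ lev r ∧ lev r ≤ lev p := by
  have hne : (vs 0 w).toFinset.Nonempty := by
    refine ⟨0, ?_⟩
    rw [List.mem_toFinset, vs_eq_cons w 0 hw]
    exact List.mem_cons_self ..
  obtain ⟨p, hp, hpm⟩ := exists_max_image (vs 0 w).toFinset lev hne
  obtain ⟨q, hq, hqm⟩ := exists_min_image (vs 0 w).toFinset lev hne
  refine ⟨p, List.mem_toFinset.1 hp, q, List.mem_toFinset.1 hq, ?_,
    fun r hr => ⟨hqm r (List.mem_toFinset.2 hr), hpm r (List.mem_toFinset.2 hr)⟩⟩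
  have hqp : lev q ≤ lev p := hqm p hp
  have h1 : spn w = (lev p - lev q).toNat := by
    apply le_antisymm
    · apply Finset.sup_le
      rintro ⟨r, t⟩ hr
      rw [mem_product] at hr
      have e1 := hpm r hr.1
      have e2 := hqm t hr.2
      show (lev r - lev t).toNat ≤ _
      omega
    · have hmem : (p, q) ∈ (vs 0 w).toFinset ×ˢ (vs 0 w).toFinset := mem_product.2 ⟨hp, hq⟩
      exact le_sup (f := fun p : (ℤ × ℤ) × (ℤ × ℤ) => (lev p.1 - lev p.2).toNat) hmem
  rw [h1]
  omega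

/-- span of a polygon without cut -/
lemma nocut_span {n : ℕ} (hn : 1 ≤ n) {w : List (Fin 4)} (hw : w ∈ NoCut n) :
    3 * (spn w : ℤ) ≤ 2 * n + 1 := by
  classical
  unfold NoCut at hw
  rw [mem_filter, mem_W] at hw
  obtain ⟨⟨hlen, hcl, hnd⟩, hc⟩ := hw
  have hne : w ≠ [] := by
    rintro rfl
    simp only [List.length_nil] at hlen
    omega
  obtain ⟨p, hp, q, hq, hsp, hall⟩ := exists_spn hne
  obtain ⟨a, ha, hLa⟩ := H58.exists_of_cnt_pos w (lev p) ((cnt_pos _ _).2 ⟨p, hp, rfl⟩)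
  obtain ⟨b, hb, hLb⟩ := H58.exists_of_cnt_pos w (lev q) ((cnt_pos _ _).2 ⟨q, hq, rfl⟩)
  rcases Nat.eq_zero_or_pos (spn w) with h0 | h0
  · rw [h0]
    push_cast
    linarith
  have c2 : ∀ k : ℤ, lev q < k → k < lev p → 2 ≤ cnt (vs 0 w) k := by
    intro k hk0 hk1
    obtain ⟨i, hi, hLi, hui⟩ := H58.up_exists w hcl k b a hb ha (by omega) (by omega)
    obtain ⟨j, hj, hLj, huj⟩ := H58.down_exists w hcl k a b ha hb (by omega) (by omega)
    have hij : i ≠ j := by
      rintro rfl
      exact huj hui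
    rw [H58.cnt_eq]
    have hsub : ({i, j} : Finset ℕ) ⊆ (range w.length).filter (fun j => H58.L w j = k) := by
      intro x hx
      simp only [mem_insert, mem_singleton] at hx
      rw [mem_filter, mem_range]
      rcases hx with rfl | rfl
      · exact ⟨hi, hLi⟩
      · exact ⟨hj, hLj⟩
    have := card_le_card hsub
    rwa [card_pair hij] at this
  have cp : ∀ k : ℤ, lev q ≤ k → k ≤ lev p → 0 < cnt (vs 0 w) k := by
    intro k hk0 hk1
    rcases lt_or_eq_of_le hk0 with h1 | h1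
    · rcases lt_or_eq_of_le hk1 with h2 | h2
      · have := c2 k h1 h2
        omega
      · rw [h2]
        exact (cnt_pos _ _).2 ⟨p, hp, rfl⟩
    · rw [← h1]
      exact (cnt_pos _ _).2 ⟨q, hq, rfl⟩
  have h1 : ∑ k ∈ Icc (lev q) (lev p), cnt (vs 0 w) k ≤ 2 * n := by
    have := sum_cnt_le (vs 0 w) (Icc (lev q) (lev p))
    rwa [vs_length, hlen] at this
  have h2 := sum_levels (lev q) (lev p) (by omega) (fun k => cnt (vs 0 w) k) 1 1 (2 * n)
    (cp _ le_rfl (by omega)) (cp _ (by omega) le_rfl)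
    (by
      intro k hk0 hk1
      have e1 := c2 k hk0 hk1
      have e2 := hc k
      show 3 ≤ cnt (vs 0 w) k
      by_contra hlt
      apply e2
      exact ⟨by omega, cp _ (by omega) (by omega), cp _ (by omega) (by omega)⟩)
    h1
  rw [← hsp]
  push_cast at h2
  linarith

end Pool.Agent.FL
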