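import Pool.Agent.Lib_helper12.FL.Levels

/-! Polygons under a force: the trivial range of small `s` (module MGI2). -/

set_option autoImplicit false

namespace Pool.Agent.FL

open Finset Pool.Agent.Lib27 Pool.Agent.SapR

lemma mem_wordsUpTo (M : ℕ) (w : List (Fin 4)) : w ∈ wordsUpTo M ↔ w.length ≤ M := by
  unfold wordsUpTo
  rw [mem_biUnion]
  simp only [mem_words, mem_range]
  constructor
  · rintro ⟨k, hk, h⟩
    omega
  · intro h
    exact ⟨w.length, by omega, rfl⟩

lemma sum_wordsUpTo (M : ℕ) (z : ℝ) :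
    ∑ U ∈ wordsUpTo M, z ^ U.length = ∑ k ∈ range (M + 1), (4 * z) ^ k := by
  unfold wordsUpTo
  rw [sum_biUnion]
  · apply sum_congr rfl
    intro k _
    have h1 : ∀ U ∈ words k, z ^ U.length = z ^ k := by
      intro U hU
      rw [(mem_words k U).1 hU]
    rw [sum_congr rfl h1, sum_const, card_words, nsmul_eq_mul, mul_pow]
    push_cast
    ring
  · intro a _ b _ hab
    rw [Function.onFun, disjoint_left]
    intro U h1 h2
    rw [mem_words] at h1 h2
    exact hab (h1.symm.trans h2)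

lemma sum_wordsUpTo_le (M : ℕ) (z : ℝ) (h0 : 0 ≤ z) (h1 : z < 1 / 4) :
    ∑ U ∈ wordsUpTo M, z ^ U.length ≤ 1 / (1 - 4 * z) := by
  rw [sum_wordsUpTo]
  have h2 : (0 : ℝ) < 1 - 4 * z := by linarith
  rw [le_div_iff₀ h2]
  have h3 := geom_sum_mul (4 * z) (M + 1)
  have h4 : 0 ≤ (4 * z) ^ (M + 1) := by positivity
  nlinarith

lemma mem_Pc (r : ℕ) (p : List (Fin 4) × List (Fin 4)) :
    p ∈ Pc r ↔ FreePiece p.1 p.2 ∧ p.1.length + p.2.length ≤ r + 2 := by
  classical
  unfold Pc
  rw [mem_filter, mem_product, mem_wordsUpTo, mem_wordsUpTo]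
  constructor
  · rintro ⟨_, h⟩
    exact h
  · intro h
    exact ⟨⟨by omega, by omega⟩, h⟩

lemma hl_eq {p : List (Fin 4) × List (Fin 4)} (h : FreePiece p.1 p.2) :
    p.1.length + p.2.length = 2 * hl p := by
  have h1 := lev_parity p.1 0
  have h2 := lev_parity p.2 0
  rw [h.1.2.1] at h2
  simp only [lev_zero] at h1 h2
  have h3 : Even ((lev (ep 0 p.1) - 0 - (p.1.length : ℤ)) + (-lev (ep 0 p.1) - 0 - p.2.length)) :=
    h1.add h2
  have h4 : (lev (ep 0 p.1) - 0 - (p.1.length : ℤ)) + (-lev (ep 0 p.1) - 0 - p.2.length) =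
      -((p.1.length + p.2.length : ℕ) : ℤ) := by
    push_cast
    ring
  rw [h4, even_neg, Int.even_coe_nat] at h3
  obtain ⟨k, hk⟩ := h3
  unfold hl
  omega

lemma htn_le {p : List (Fin 4) × List (Fin 4)} (h : FreePiece p.1 p.2) :
    3 * htn p ≤ 2 * hl p + 1 := by
  have h1 := piece_height h
  have h2 := hl_eq h
  have h3 : 0 < lev (ep 0 p.1) := h.1.1
  unfold htn ht
  omega

lemma hl_pos {p : List (Fin 4) × List (Fin 4)} (h : FreePiece p.1 p.2) : 1 ≤ hl p := by
  have h2 := hl_eq h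
  have h3 := List.length_pos_iff.2 h.1.U_ne
  omega

/-- number of pieces of half length `m` -/
lemma card_pieces (r m : ℕ) :
    (((Pc r).filter (fun p => hl p = m)).card : ℝ) ≤ 25 * 25 ^ m := by
  classical
  have h1 : (((Pc r).filter (fun p => hl p = m)).card : ℝ) * (1 / 25) ^ m ≤ 25 := by
    have e1 : (((Pc r).filter (fun p => hl p = m)).card : ℝ) * (1 / 25) ^ m =
        ∑ p ∈ (Pc r).filter (fun p => hl p = m),
          ((1 / 5 : ℝ) ^ p.1.length * (1 / 5 : ℝ) ^ p.2.length) := by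
      rw [← nsmul_eq_mul, ← sum_const]
      apply sum_congr rfl
      intro p hp
      rw [mem_filter, mem_Pc] at hp
      have e2 := hl_eq hp.1.1
      rw [← pow_add, e2, hp.2, pow_mul]
      norm_num
    have e3 : (Pc r).filter (fun p => hl p = m) ⊆ wordsUpTo (r + 2) ×ˢ wordsUpTo (r + 2) := by
      intro p hp
      rw [mem_filter, mem_Pc] at hp
      rw [mem_product, mem_wordsUpTo, mem_wordsUpTo]
      omega
    rw [e1]
    refine (sum_le_sum_of_subset_of_nonneg e3 (fun p _ _ => by positivity)).trans ?_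
    rw [sum_product]
    have e4 : ∀ U ∈ wordsUpTo (r + 2), ∑ D ∈ wordsUpTo (r + 2),
        ((1 / 5 : ℝ) ^ U.length * (1 / 5 : ℝ) ^ D.length) ≤ (1 / 5 : ℝ) ^ U.length * 5 := by
      intro U _
      rw [← mul_sum]
      apply mul_le_mul_of_nonneg_left _ (by positivity)
      have := sum_wordsUpTo_le (r + 2) (1 / 5) (by norm_num) (by norm_num)
      norm_num at this ⊢
      exact this
    refine (sum_le_sum e4).trans ?_
    rw [← sum_mul]
    have := sum_wordsUpTo_le (r + 2) (1 / 5) (by norm_num) (by norm_num)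
    norm_num at this ⊢
    linarith
  have h2 : (1 / 25 : ℝ) ^ m = 1 / 25 ^ m := by rw [div_pow, one_pow]
  rw [h2, mul_one_div, div_le_iff₀ (by positivity)] at h1
  exact h1

/-- the elementary estimate of one term -/
lemma term_le (m h : ℕ) (s rho : ℝ) (h3 : 3 * h ≤ 2 * m + 1) (hs0 : 0 < s)
    (hs : s ≤ (1 / 25) ^ 3) (hr0 : 0 < rho) (hr : rho ≤ 1 / 4) :
    rho ^ m * s ^ (m - h) ≤ 25 * (1 / 100) ^ m := by
  have e1 : rho ^ m ≤ (1 / 4) ^ m := pow_le_pow_left₀ hr0.le hr m
  have e2 : s ^ (m - h) ≤ ((1 / 25 : ℝ) ^ 3) ^ (m - h) := pow_le_pow_left₀ hs0.le hs _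
  have e3 : ((1 / 25 : ℝ) ^ 3) ^ (m - h) ≤ 25 * (1 / 25) ^ m := by
    rw [← pow_mul]
    rcases Nat.eq_zero_or_pos m with h0 | h0
    · subst h0
      simp
    · have e4 : (1 / 25 : ℝ) ^ (3 * (m - h)) ≤ (1 / 25) ^ (m - 1) :=
        pow_le_pow_of_le_one (by norm_num) (by norm_num) (by omega)
      refine e4.trans (le_of_eq ?_)
      obtain ⟨k, rfl⟩ : ∃ k, m = k + 1 := ⟨m - 1, by omega⟩
      rw [Nat.add_sub_cancel, pow_succ]
      ring
  calc rho ^ m * s ^ (m - h) ≤ (1 / 4) ^ m * (25 * (1 / 25) ^ m) :=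
        mul_le_mul e1 (e2.trans e3) (by positivity) (by positivity)
    _ = 25 * ((1 / 4) ^ m * (1 / 25) ^ m) := by ring
    _ = 25 * (1 / 100) ^ m := by rw [← mul_pow]; norm_num

/-- tails for small `s` -/
lemma tails_small (n : ℕ) (s rho : ℝ) (hn : 1 ≤ n) (hs0 : 0 < s) (hs : s ≤ (1 / 25) ^ 3)
    (hr0 : 0 < rho) (hr : rho ≤ 1 / 4) : Tails 625 (1 / 4) n s rho := by
  classical
  refine ⟨?_, ?_, ?_⟩
  · intro m
    have h1 : ∀ p ∈ (Pc (2 * n - 1)).filter (fun p => hl p = m),
        rho ^ m * s ^ (m - htn p) ≤ 25 * (1 / 100) ^ m := by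
      intro p hp
      rw [mem_filter, mem_Pc] at hp
      have := htn_le hp.1.1
      rw [hp.2] at this
      exact term_le m (htn p) s rho this hs0 hs hr0 hr
    refine (sum_le_sum h1).trans ?_
    rw [sum_const, nsmul_eq_mul]
    calc (((Pc (2 * n - 1)).filter (fun p => hl p = m)).card : ℝ) * (25 * (1 / 100) ^ m)
        ≤ (25 * 25 ^ m) * (25 * (1 / 100) ^ m) :=
          mul_le_mul_of_nonneg_right (card_pieces _ _) (by positivity)
      _ = 625 * (25 ^ m * (1 / 100) ^ m) := by ring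
      _ = 625 * (1 / 4) ^ m := by rw [← mul_pow]; norm_num
  · intro m
    have h1 : ∀ x ∈ Icc (1 : ℤ) m, ∑ T ∈ CapSet (2 * n - 1) x (2 * m),
        rho ^ m * s ^ (m - hgt T) ≤ 16 ^ m * (25 * (1 / 100) ^ m) := by
      intro x _
      have h2 : ∀ T ∈ CapSet (2 * n - 1) x (2 * m),
          rho ^ m * s ^ (m - hgt T) ≤ 25 * (1 / 100) ^ m := by
        intro T hT
        unfold CapSet at hT
        rw [mem_filter, mem_words] at hT
        have := cap_height hT.2.1 hT.2.2.1
        rw [hT.1] at this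
        push_cast at this
        exact term_le m (hgt T) s rho (by omega) hs0 hs hr0 hr
      refine (sum_le_sum h2).trans ?_
      rw [sum_const, nsmul_eq_mul]
      apply mul_le_mul_of_nonneg_right _ (by positivity)
      have h3 : (CapSet (2 * n - 1) x (2 * m)).card ≤ 4 ^ (2 * m) := by
        rw [← card_words]
        exact card_filter_le _ _
      have h4 : ((CapSet (2 * n - 1) x (2 * m)).card : ℝ) ≤ 4 ^ (2 * m) := by exact_mod_cast h3
      refine h4.trans (le_of_eq ?_)
      rw [pow_mul]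
      norm_num
    refine (sum_le_sum h1).trans ?_
    rw [sum_const, nsmul_eq_mul, Int.card_Icc]
    have h5 : (((m : ℤ) + 1 - 1).toNat : ℝ) = m := by simp
    rw [h5]
    have h6 : (m : ℝ) ≤ 16 / 9 * (25 / 16) ^ m := by
      have := one_add_mul_le_pow (show (-2 : ℝ) ≤ 9 / 16 by norm_num) m
      have h7 : (1 + 9 / 16 : ℝ) = 25 / 16 := by norm_num
      rw [h7] at this
      linarith
    calc (m : ℝ) * (16 ^ m * (25 * (1 / 100) ^ m))
        ≤ (16 / 9 * (25 / 16) ^ m) * (16 ^ m * (25 * (1 / 100) ^ m)) :=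
          mul_le_mul_of_nonneg_right h6 (by positivity)
      _ = (16 / 9 * 25) * ((25 / 16) ^ m * 16 ^ m * (1 / 100) ^ m) := by ring
      _ = (16 / 9 * 25) * (1 / 4) ^ m := by rw [← mul_pow, ← mul_pow]; norm_num
      _ ≤ 625 * (1 / 4) ^ m := mul_le_mul_of_nonneg_right (by norm_num) (by positivity)
  · have h1 : ∀ w ∈ NoCut n, rho ^ n * s ^ (n - spn w) ≤ 25 * (1 / 100) ^ n := by
      intro w hw
      have := nocut_span hn hw
      exact term_le n (spn w) s rho (by omega) hs0 hs hr0 hr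
    refine (sum_le_sum h1).trans ?_
    rw [sum_const, nsmul_eq_mul]
    have h3 : (NoCut n).card ≤ 4 ^ (2 * n) := by
      rw [← card_words]
      exact (card_filter_le _ _).trans (card_filter_le _ _)
    have h4 : ((NoCut n).card : ℝ) ≤ 16 ^ n := by
      have : ((NoCut n).card : ℝ) ≤ 4 ^ (2 * n) := by exact_mod_cast h3
      refine this.trans (le_of_eq ?_)
      rw [pow_mul]
      norm_num
    have h5 : (1 : ℝ) ≤ n := by exact_mod_cast hn
    calc ((NoCut n).card : ℝ) * (25 * (1 / 100) ^ n)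
        ≤ 16 ^ n * (25 * (1 / 100) ^ n) := mul_le_mul_of_nonneg_right h4 (by positivity)
      _ = 25 * (16 ^ n * (1 / 100) ^ n) := by ring
      _ = 25 * (16 / 100) ^ n := by rw [← mul_pow]; norm_num
      _ ≤ (625 * n) * (1 / 4) ^ n := by
          apply mul_le_mul _ (pow_le_pow_left₀ (by norm_num) (by norm_num) n) (by positivity)
            (by positivity)
          linarith

lemma basic_piece (a b : Fin 4) (ha : a = 0 ∨ a = 1) (hb : b = 2 ∨ b = 3) :
    FreePiece [a] [b] := by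
  have h1 : lev (ep 0 [a]) = 1 := by
    rcases ha with rfl | rfl <;> rfl
  have h2 : lev (ep 0 [b]) = -1 := by
    rcases hb with rfl | rfl <;> rfl
  have ea : (vt 0 [a]).Nodup := by
    rw [vt_cons, vt_nil, List.nodup_cons]
    refine ⟨?_, List.nodup_singleton _⟩
    rw [List.mem_singleton, zero_add]
    exact (dv_ne_zero a).symm
  have eb : (vt 0 [b]).Nodup := by
    rw [vt_cons, vt_nil, List.nodup_cons]
    refine ⟨?_, List.nodup_singleton _⟩
    rw [List.mem_singleton, zero_add]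
    exact (dv_ne_zero b).symm
  refine ⟨⟨by rw [h1]; norm_num, by rw [h1, h2], ea, eb, ?_, ?_⟩, ?_⟩
  · intro p hp
    simp at hp
  · intro p hp
    simp at hp
  · intro k hk0 hk1
    rw [h1] at hk1
    omega

lemma rho_upper (n : ℕ) (s rho : ℝ) (_hn : 1 ≤ n) (hs0 : 0 < s) (hr0 : 0 < rho)
    (h : ∑ p ∈ Pc (2 * n - 1), rho ^ hl p * s ^ (hl p - htn p) = 1) : rho ≤ 1 / 4 := by
  classical
  set B : Finset (List (Fin 4) × List (Fin 4)) :=
    {([0], [2]), ([0], [3]), ([1], [2]), ([1], [3])} with hB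
  have hBP : B ⊆ Pc (2 * n - 1) := by
    intro p hp
    rw [mem_Pc]
    rw [hB] at hp
    simp only [mem_insert, mem_singleton] at hp
    rcases hp with rfl | rfl | rfl | rfl
    · exact ⟨basic_piece 0 2 (Or.inl rfl) (Or.inl rfl), by simp only [List.length_singleton]; omega⟩
    · exact ⟨basic_piece 0 3 (Or.inl rfl) (Or.inr rfl), by simp only [List.length_singleton]; omega⟩
    · exact ⟨basic_piece 1 2 (Or.inr rfl) (Or.inl rfl), by simp only [List.length_singleton]; omega⟩
    · exact ⟨basic_piece 1 3 (Or.inr rfl) (Or.inr rfl), by simp only [List.length_singleton]; omega⟩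
  have h1 : ∀ p ∈ B, rho ^ hl p * s ^ (hl p - htn p) = rho := by
    intro p hp
    rw [hB] at hp
    simp only [mem_insert, mem_singleton] at hp
    have e1 : hl p = 1 := by
      rcases hp with rfl | rfl | rfl | rfl <;> rfl
    have e2 : htn p = 1 := by
      rcases hp with rfl | rfl | rfl | rfl <;> rfl
    rw [e1, e2]
    simp
  have h2 : ∑ p ∈ B, rho ^ hl p * s ^ (hl p - htn p) ≤ 1 := by
    rw [← h]
    exact sum_le_sum_of_subset_of_nonneg hBP (fun p _ _ => by positivity)
  rw [sum_congr rfl h1, sum_const, nsmul_eq_mul] at h2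
  have h3 : B.card = 4 := by
    rw [hB]
    decide
  rw [h3] at h2
  push_cast at h2
  linarith

lemma rho_lower (n : ℕ) (s rho : ℝ) (hs0 : 0 < s) (hs1 : s ≤ 1) (hr0 : 0 < rho)
    (h : ∑ p ∈ Pc (2 * n - 1), rho ^ hl p * s ^ (hl p - htn p) = 1) : 1 / 100 ≤ rho := by
  classical
  by_contra hlt
  push Not at hlt
  set y := Real.sqrt rho with hy
  have hy0 : 0 ≤ y := Real.sqrt_nonneg _
  have hyy : y ^ 2 = rho := Real.sq_sqrt hr0.le
  have hy1 : y < 1 / 10 := by
    by_contra hc
    push Not at hc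
    nlinarith
  set M := 2 * n - 1 + 2 with hM
  set S := ∑ U ∈ (wordsUpTo M).filter (fun U => U ≠ []), y ^ U.length with hS
  have hS1 : S ≤ 2 / 3 := by
    have e1 : ∑ U ∈ wordsUpTo M, y ^ U.length = 1 + S := by
      rw [hS, ← sum_filter_add_sum_filter_not (wordsUpTo M) (fun U => U = [])]
      congr 1
      have : (wordsUpTo M).filter (fun U => U = []) = {[]} := by
        ext U
        rw [mem_filter, mem_wordsUpTo, mem_singleton]
        constructor
        · exact fun h => h.2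
        · rintro rfl
          simp
      rw [this, sum_singleton]
      simp
    have e2 := sum_wordsUpTo_le M y hy0 (by linarith)
    have e3 : 1 / (1 - 4 * y) ≤ 5 / 3 := by
      rw [div_le_iff₀ (by linarith)]
      linarith
    linarith
  have hS0 : 0 ≤ S := sum_nonneg (fun U _ => by positivity)
  have h1 : ∑ p ∈ Pc (2 * n - 1), rho ^ hl p * s ^ (hl p - htn p) ≤ S * S := by
    have e1 : ∀ p ∈ Pc (2 * n - 1), rho ^ hl p * s ^ (hl p - htn p) ≤
        y ^ p.1.length * y ^ p.2.length := by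
      intro p hp
      rw [mem_Pc] at hp
      have e2 := hl_eq hp.1
      rw [← pow_add, e2, pow_mul, hyy]
      have e3 : s ^ (hl p - htn p) ≤ 1 := pow_le_one₀ hs0.le hs1
      have e4 : 0 ≤ rho ^ hl p := by positivity
      nlinarith
    refine (sum_le_sum e1).trans ?_
    have e5 : Pc (2 * n - 1) ⊆ (wordsUpTo M).filter (fun U => U ≠ []) ×ˢ
        (wordsUpTo M).filter (fun U => U ≠ []) := by
      intro p hp
      rw [mem_Pc] at hp
      rw [mem_product, mem_filter, mem_filter, mem_wordsUpTo, mem_wordsUpTo]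
      exact ⟨⟨by omega, hp.1.1.U_ne⟩, ⟨by omega, hp.1.1.D_ne⟩⟩
    refine (sum_le_sum_of_subset_of_nonneg e5 (fun p _ _ => by positivity)).trans ?_
    rw [sum_product, hS, sum_mul_sum]
  rw [h] at h1
  nlinarith

/-- module MGI2 -/
theorem mgi2 : MGI2_Stmt := by
  refine ⟨⟨(1 / 25) ^ 3, 625, 1 / 4, by norm_num, by norm_num, by norm_num, by norm_num,
    by norm_num, ?_⟩, ?_⟩
  · intro n s rho hn hs0 hs hr0 hr
    exact tails_small n s rho hn hs0 hs hr0 hr
  · intro n s rho hn hs0 hs1 hr0 h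
    exact ⟨rho_lower n s rho hs0 hs1 hr0 h, rho_upper n s rho hn hs0 hr0 h⟩

end Pool.Agent.FL
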